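import Pool.Agent.Helper14.FO.Defs

/-!
# UNI: universality of finite sets of words (MP_190084_co)
-/

set_option autoImplicit false

namespace Pool.Agent.Helper14.FO

/-- the word condition: length `l + 1` with `l ≤ j`, `R l j`, last letter true, consistent -/
def uniGood (R : ℕ → ℕ → Prop) (j : ℕ) (w : List Bool) : Prop :=
  ∃ l, l ≤ j ∧ w.length = l + 1 ∧ R l j ∧ w.reverse[l]? = some true ∧
    ∀ i, i ≤ l → ∀ k, k ≤ l → w.reverse[i]? = some true → R i k → w.reverse[k]? = some true

lemma uni_finite (R : ℕ → ℕ → Prop) (j : ℕ) : {w : List Bool | uniGood R j w}.Finite := by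
  apply (List.finite_length_le Bool (j + 1)).subset
  intro w hw
  obtain ⟨l, hl, hlen, _⟩ := hw
  show w.length ≤ j + 1
  omega

lemma uni_suffix {a b : List Bool} (h : b <:+ a) {k : ℕ} (hk : k < b.length) :
    b.reverse[k]? = a.reverse[k]? := by
  have h1 : b.reverse <+: a.reverse := List.reverse_prefix.mpr h
  obtain ⟨t, ht⟩ := h1
  rw [← ht, List.getElem?_append_left (by rw [List.length_reverse]; exact hk)]

open Classical in
/-- the witness word of an index -/
noncomputable def uniWord (R : ℕ → ℕ → Prop) (i : ℕ) : List Bool :=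
  ((List.range (i + 1)).map (fun k => decide (R i k))).reverse

lemma uniWord_length (R : ℕ → ℕ → Prop) (i : ℕ) : (uniWord R i).length = i + 1 := by
  simp [uniWord]

lemma uniWord_get (R : ℕ → ℕ → Prop) (i k : ℕ) (hk : k ≤ i) :
    (uniWord R i).reverse[k]? = some true ↔ R i k := by
  classical
  have h1 : (uniWord R i).reverse = (List.range (i + 1)).map (fun k => decide (R i k)) := by
    simp [uniWord]
  rw [h1, List.getElem?_map, List.getElem?_range (by omega)]
  simp

lemma uniWord_good (R : ℕ → ℕ → Prop) (i : ℕ) (hr : R i i)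
    (ht : ∀ a b c, R a b → R b c → R a c) : uniGood R i (uniWord R i) := by
  refine ⟨i, le_refl i, uniWord_length R i, hr, (uniWord_get R i i (le_refl i)).mpr hr, ?_⟩
  intro m hm k hk h1 h2
  rw [uniWord_get R i k hk]
  rw [uniWord_get R i m hm] at h1
  exact ht _ _ _ h1 h2

theorem st_UNI : ST_UNI := by
  intro P hP r hrefl htrans
  obtain ⟨enc, henc⟩ := exists_injective_nat P
  let R : ℕ → ℕ → Prop := fun i j => ∃ x y, enc x = i ∧ enc y = j ∧ r x y
  have hRt : ∀ a b c, R a b → R b c → R a c := by
    rintro a b c ⟨x, y, hx, hy, hxy⟩ ⟨y', z, hy', hz, hyz⟩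
    have : y = y' := henc (hy.trans hy'.symm)
    subst this
    exact ⟨x, z, hx, hz, htrans _ _ _ hxy hyz⟩
  have hRr : ∀ x, R (enc x) (enc x) := fun x => ⟨x, x, rfl, rfl, hrefl x⟩
  have hRi : ∀ x y, R (enc x) (enc y) → r x y := by
    rintro x y ⟨x', y', hx, hy, h⟩
    have h1 : x' = x := henc hx
    have h2 : y' = y := henc hy
    subst h1 h2
    exact h
  refine ⟨fun x => (uni_finite R (enc x)).toFinset, ?_, ?_⟩
  · intro x
    exact ⟨uniWord R (enc x), (uni_finite R (enc x)).mem_toFinset.mpr
      (uniWord_good R _ (hRr x) hRt)⟩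
  · intro x y
    constructor
    · intro hxy a ha
      rw [Set.Finite.mem_toFinset] at ha
      obtain ⟨l, hl, hlen, hR, hlast, hcons⟩ := ha
      have hlj : R l (enc y) := hRt _ _ _ hR ⟨x, y, rfl, rfl, hxy⟩
      by_cases hc : l ≤ enc y
      · exact ⟨a, (uni_finite R (enc y)).mem_toFinset.mpr ⟨l, hc, hlen, hlj, hlast, hcons⟩,
          List.suffix_refl a⟩
      · push Not at hc
        set j := enc y with hj
        have hsuf : a.drop (a.length - (j + 1)) <:+ a := List.drop_suffix _ _
        have hbl : (a.drop (a.length - (j + 1))).length = j + 1 := by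
          rw [List.length_drop]
          omega
        refine ⟨a.drop (a.length - (j + 1)), ?_, hsuf⟩
        rw [Set.Finite.mem_toFinset]
        refine ⟨j, le_refl j, hbl, hRr y, ?_, ?_⟩
        · rw [uni_suffix hsuf (by omega)]
          exact hcons l (le_refl l) j (by omega) hlast hlj
        · intro i hi k hk h1 h2
          rw [uni_suffix hsuf (by omega)] at h1 ⊢
          exact hcons i (by omega) k (by omega) h1 h2
    · intro h
      obtain ⟨b, hb, hsuf⟩ := h (uniWord R (enc x)) ((uni_finite R (enc x)).mem_toFinset.mpr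
        (uniWord_good R _ (hRr x) hRt))
      rw [Set.Finite.mem_toFinset] at hb
      obtain ⟨l, hl, hlen, hR, hlast, _⟩ := hb
      have hle : l + 1 ≤ enc x + 1 := by
        rw [← hlen, ← uniWord_length R (enc x)]
        exact hsuf.length_le
      rw [uni_suffix hsuf (by omega), uniWord_get R _ _ (by omega)] at hlast
      exact hRi _ _ (hRt _ _ _ hlast hR)

end Pool.Agent.Helper14.FO
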