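import Pool.Agent.Helper14.FO.Defs2
import Pool.Agent.Helper14.FO.CERT

/-!
# CE2: the certificate theorem with weights (MP_190084_co)
-/

set_option autoImplicit false

namespace Pool.Agent.Helper14.FO

open Finset

theorem ce2_class {α β : Type} [Fintype α] [Fintype β] [DecidableEq β] [Nonempty β]
    (g : α → β) (w : α → ℝ) (hw : ∑ a, w a = 1) :
    ∃ c, 1 ≤ (Fintype.card β : ℝ) * ∑ a ∈ univ.filter (fun a => g a = c), w a := by
  by_contra h
  push Not at h
  have h1 : ∑ c : β, (Fintype.card β : ℝ) * ∑ a ∈ univ.filter (fun a => g a = c), w a <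
      ∑ c : β, (1 : ℝ) :=
    Finset.sum_lt_sum_of_nonempty univ_nonempty (fun c _ => h c)
  rw [← Finset.mul_sum, Finset.sum_fiberwise univ g w, hw] at h1
  simp at h1

theorem ce2_one {V : Type} [Fintype V] [DecidableEq V] (ρ : V → ℝ) (h : ∑ x, ρ x = 1) (n : ℕ) :
    ∑ u : Fin n → V, ∏ i, ρ (u i) = 1 := by
  have h1 := Finset.prod_univ_sum (fun _ : Fin n => (univ : Finset V)) (fun _ x => ρ x)
  rw [Fintype.piFinset_univ] at h1
  rw [← h1, h]
  simp

theorem ce2_step {V : Type} {n : ℕ} (U : Finset (Fin n → V)) (w : (Fin n → V) → ℝ) (L : ℕ)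
    (hU : 1 ≤ (L : ℝ) * ∑ u ∈ U, w u) (a T : ℝ) (ha : 0 < a)
    (h : a ^ n * ∑ u ∈ U, w u ≤ T) : a ^ n ≤ L * T := by
  have h3 : 0 ≤ a ^ n := by positivity
  calc a ^ n = a ^ n * 1 := by ring
    _ ≤ a ^ n * ((L : ℝ) * ∑ u ∈ U, w u) := mul_le_mul_of_nonneg_left hU h3
    _ = L * (a ^ n * ∑ u ∈ U, w u) := by ring
    _ ≤ L * T := mul_le_mul_of_nonneg_left h (Nat.cast_nonneg _)

theorem st_CE2 (hT : ST_CT2) (hC : ST_CC2) : ST_CE2 := by
  intro V _ _ X ρ θa χa hρ hρ1 hθa hχa hLT hLC ι _ _ W Y θ χ hθ hχ hUT hUC hA l μ hl hμ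
  have hVne : Nonempty V := by
    by_contra hV
    rw [not_nonempty_iff] at hV
    rw [Finset.univ_eq_empty, Finset.sum_empty] at hρ1
    exact zero_ne_one hρ1
  by_contra hcon
  push Not at hcon
  obtain ⟨k, hk, hs, hf⟩ := hA
  have hι : Nonempty ι := by
    obtain ⟨f, -⟩ := hf 1 le_rfl
    exact ⟨((f (fun _ => Classical.arbitrary V)).2 0).1⟩
  obtain ⟨i0, -, hi0⟩ := Finset.exists_min_image (univ : Finset ι)
    (fun i => (l * Real.log θa + μ * Real.log χa) - (l * Real.log (θ i) + μ * Real.log (χ i)))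
    univ_nonempty
  set B := (l * Real.log θa + μ * Real.log χa) - (l * Real.log (θ i0) + μ * Real.log (χ i0))
    with hB
  have hBpos : 0 < B := by
    have := hcon i0
    linarith
  obtain ⟨n, hn1, hn⟩ := cert_large (l + μ) B k hk hs (Fintype.card ι) hBpos (by linarith)
  obtain ⟨f, hfn⟩ := hf n hn1
  set cls : (Fin n → V) → Fin (k n) × (ι → Fin (n + 1)) := fun u =>
    ((f u).1, fun i => ⟨(univ.filter (fun j => ((f u).2 j).1 = i)).card, by
      have h1 := Finset.card_filter_le (univ : Finset (Fin n)) (fun j => ((f u).2 j).1 = i)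
      rw [Finset.card_univ, Fintype.card_fin] at h1
      omega⟩) with hcls
  have hne : Nonempty (Fin (k n) × (ι → Fin (n + 1))) := ⟨cls (fun _ => Classical.arbitrary V)⟩
  obtain ⟨c, hc⟩ := ce2_class cls (fun u => ∏ i, ρ (u i)) (ce2_one ρ hρ1 n)
  have hcard : Fintype.card (Fin (k n) × (ι → Fin (n + 1))) = k n * (n + 1) ^ Fintype.card ι := by
    simp
  rw [hcard] at hc
  set L := k n * (n + 1) ^ Fintype.card ι with hL
  have hLpos : 0 < L := Nat.mul_pos (hk n) (pow_pos (Nat.succ_pos n) _)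
  set U := univ.filter (fun a => cls a = c) with hU
  have hUm : ∀ u ∈ U, cls u = c := fun u hu => (Finset.mem_filter.1 hu).2
  have hadj : ∀ u ∈ U, ∀ v ∈ U, (∃ i, X.Adj (u i) (v i)) →
      ∃ i, (SigG Y).Adj ((f u).2 i) ((f v).2 i) := by
    intro u hu v hv huv
    rcases hfn u v huv with h | h
    · exfalso
      apply h
      have h1 : (cls u).1 = (cls v).1 := by rw [hUm u hu, hUm v hv]
      exact h1
    · exact h
  have hcnt : ∀ u ∈ U, ∀ i, (univ.filter (fun j => ((f u).2 j).1 = i)).card = (c.2 i : ℕ) := by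
    intro u hu i
    have h1 : ((cls u).2 i : ℕ) = (c.2 i : ℕ) := by rw [hUm u hu]
    exact h1
  have hprod : ∀ (t : ι → ℝ), ∀ u ∈ U, ∏ j, t ((f u).2 j).1 ≤ ∏ i, t i ^ (c.2 i : ℕ) := by
    intro t u hu
    rw [cert_prod t (fun j => ((f u).2 j).1)]
    refine le_of_eq (Finset.prod_congr rfl fun i _ => ?_)
    rw [hcnt u hu i]
  have hUne : U.Nonempty := by
    rw [Finset.nonempty_iff_ne_empty]
    intro h0
    rw [h0, Finset.sum_empty, mul_zero] at hc
    linarith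
  have hsum : ∑ i, (c.2 i : ℕ) = n := by
    obtain ⟨u, hu⟩ := hUne
    exact (Finset.sum_congr rfl fun i _ => (hcnt u hu i).symm).trans
      (cert_count (fun j => ((f u).2 j).1))
  have b1 := hT V X ρ θa hρ hθa hLT ι W Y θ hθ hUT n U (fun u => (f u).2) (∏ i, θ i ^ (c.2 i : ℕ))
    (Finset.prod_nonneg fun i _ => pow_nonneg (hθ i).le _) hadj (hprod θ)
  have b2 := hC V X ρ χa hρ hχa hLC ι W Y χ hχ hUC n U (fun u => (f u).2) (∏ i, χ i ^ (c.2 i : ℕ))
    (Finset.prod_nonneg fun i _ => pow_nonneg (hχ i).le _) hadj (hprod χ)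
  have c1 := cert_log n L hLpos θa hθa θ hθ (fun i => (c.2 i : ℕ))
    (ce2_step U _ L hc θa _ hθa b1)
  have c2 := cert_log n L hLpos χa hχa χ hχ (fun i => (c.2 i : ℕ))
    (ce2_step U _ L hc χa _ hχa b2)
  have d1 : ∑ i, ((c.2 i : ℕ) : ℝ) * (l * Real.log (θ i) + μ * Real.log (χ i)) ≤
      n * ((l * Real.log θa + μ * Real.log χa) - B) := by
    have h1 : ∑ i, ((c.2 i : ℕ) : ℝ) * (l * Real.log (θ i) + μ * Real.log (χ i)) ≤
        ∑ i, ((c.2 i : ℕ) : ℝ) * ((l * Real.log θa + μ * Real.log χa) - B) := by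
      refine Finset.sum_le_sum fun i _ => mul_le_mul_of_nonneg_left ?_ (Nat.cast_nonneg _)
      have := hi0 i (Finset.mem_univ i)
      linarith
    rw [← Finset.sum_mul] at h1
    have h2 : (∑ i, ((c.2 i : ℕ) : ℝ)) = n := by exact_mod_cast hsum
    rw [h2] at h1
    exact h1
  have d2 : ∑ i, ((c.2 i : ℕ) : ℝ) * (l * Real.log (θ i) + μ * Real.log (χ i)) =
      l * ∑ i, ((c.2 i : ℕ) : ℝ) * Real.log (θ i) + μ * ∑ i, ((c.2 i : ℕ) : ℝ) * Real.log (χ i) := by
    rw [Finset.mul_sum, Finset.mul_sum, ← Finset.sum_add_distrib]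
    refine Finset.sum_congr rfl fun i _ => ?_
    ring
  have e1 := mul_le_mul_of_nonneg_left c1 hl
  have e2 := mul_le_mul_of_nonneg_left c2 hμ
  have hn' : (l + μ) * Real.log (L : ℝ) < B * n := hn
  nlinarith

end Pool.Agent.Helper14.FO
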